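import Pool.Agent.Helper63.EQ.Z2
import Pool.Agent.Helper95.EQ.K

/-! Project EQ, blocks Z2 and Z3. -/

set_option autoImplicit false

namespace Pool.Agent.Helper63.EQ

open MeasureTheory Set Filter Topology
open Pool.Agent.Helper95.EW (Ac Dl Nr Ac_meas Ac_lt_one Ac_nonneg Nr_meas gap_int Dl_meas)
open Pool.Agent.Helper95.EQ (lev_swap Tr_eq kw_int kw_nonneg kw_supp)
open Pool.Agent.Helper71.MR (gt gt_cont gt_nonneg gt_zero gt_integrable)
open Pool.Agent.Helper63.EW (ha)
open Pool.Agent.Helper99.MS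

variable {B : ℝ} {w : ℝ → ℝ} {Cw : ℝ}

theorem F_meas (m δ V : ℝ) : Measurable (fun r : ℝ => ∫ u : ℝ, gt δ u * g1 m (V + u - r)) := by
  have hm : Measurable fun p : ℝ × ℝ => gt δ p.2 * g1 m (V + p.2 - p.1) :=
    ((gt_cont δ).measurable.comp measurable_snd).mul ((g1_meas m).comp (by fun_prop))
  exact (hm.stronglyMeasurable.integral_prod_right').measurable

theorem F_bd (hB : GB (ff mr) B) {m : ℝ} (hm : 8 ≤ m) {δ : ℝ} (hδ : δ ≤ 1) (V : ℝ) {r : ℝ}
    (hr : r ∈ Icc (0:ℝ) (1 / 2)) : |∫ u : ℝ, gt δ u * g1 m (V + u - r)| ≤ 32 * B * ell V := by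
  have hB0 := hB.nonneg
  have hl := ell_nonneg V
  rw [← Real.norm_eq_abs]
  calc ‖∫ u : ℝ, gt δ u * g1 m (V + u - r)‖ ≤ ∫ u : ℝ, gt δ u * (32 * B * ell V) := by
        refine norm_integral_le_of_norm_le ((gt_integrable δ).mul_const _) (Eventually.of_forall fun u => ?_)
        rw [norm_mul, Real.norm_of_nonneg (gt_nonneg _ _), Real.norm_eq_abs]
        rcases le_or_gt u 0 with h | h
        · simp [gt_zero (δ := δ) (Or.inl h)]
        rcases le_or_gt δ u with h' | h'
        · simp [gt_zero (δ := δ) (Or.inr h')]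
        refine mul_le_mul_of_nonneg_left ((g1_abs hB hm _).trans ?_) (gt_nonneg _ _)
        have h1 : ell (V + (u - r)) ≤ 2 * ell V := ell_shift (by rw [abs_le]; constructor <;> linarith [hr.1, hr.2])
        rw [show V + u - r = V + (u - r) by ring]
        nlinarith
    _ = (∫ u : ℝ, gt δ u) * (32 * B * ell V) := integral_mul_const _ _
    _ ≤ 1 * (32 * B * ell V) := mul_le_mul_of_nonneg_right (gt_int_le hδ) (by positivity)
    _ = _ := by ring

/-- **Z2.** -/
theorem Tr_g1 (h : Adm w Cw) (hB : GB (ff mr) B) {m : ℝ} (hm : 8 ≤ m) {δ : ℝ} (hδ0 : 0 < δ) (hδ : δ ≤ 1) (V : ℝ) :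
    Tr w δ (g1 m) V = ∫ t : ℝ, Real.exp (-(t / 2)) * EE m t * Zn mr w δ (V - t) := by
  have hB0 := hB.nonneg
  have hlV := ell_nonneg V
  set D : ℝ → ℝ → ℝ := fun t lam => Real.exp (-(t / 2)) * EE m t * Dl (ha mr δ) w (V - t) lam with hD
  have hDmeas : Measurable (Function.uncurry D) := by
    have h1 : Measurable fun p : ℝ × ℝ => Real.exp (-(p.1 / 2)) * EE m p.1 :=
      (by fun_prop : Measurable fun p : ℝ × ℝ => Real.exp (-(p.1 / 2))).mul ((EE_cont m).measurable.comp measurable_fst)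
    have h2 : Measurable fun p : ℝ × ℝ => Ac w p.2 := (Ac_meas h.hub).comp measurable_snd
    have h3 : Measurable fun p : ℝ × ℝ => Dl (ha mr δ) w (V - p.1) p.2 := by
      unfold Dl
      have h4 : Measurable fun p : ℝ × ℝ => ha mr δ (V - p.1) := (ha_meas mr δ).comp (by fun_prop)
      have h5 : Measurable fun p : ℝ × ℝ => ha mr δ (V - p.1 + Real.log (Ac w p.2)) :=
        (ha_meas mr δ).comp ((by fun_prop : Measurable fun p : ℝ × ℝ => V - p.1).add (Real.measurable_log.comp h2))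
      exact h4.sub (h2.sqrt.mul h5)
    exact h1.mul h3
  have hDb : ∀ t : ℝ, ∀ lam ∈ Nr w, |D t lam| ≤ (Real.exp (-(t / 2)) * EE m t * ell t) * (24 * B * ell V * (1 - Ac w lam)) := by
    intro t lam hl
    have hE := (EE_pos m t).le
    have hg : 0 ≤ 1 - Ac w lam := by have := Ac_lt_one h.hub lam; linarith
    rw [hD]
    simp only
    rw [abs_mul, abs_mul, abs_of_pos (Real.exp_pos _), abs_of_nonneg hE]
    have h1 := Dl_near h hB hδ0 hδ (V - t) lam hl
    have h2 : ell (V - t) ≤ ell V * ell t := by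
      have := ell_add V (-t)
      rwa [ell_neg] at this
    have h3 : 24 * B * ell (V - t) * (1 - Ac w lam) ≤ ell t * (24 * B * ell V * (1 - Ac w lam)) := by
      calc 24 * B * ell (V - t) * (1 - Ac w lam) ≤ 24 * B * (ell V * ell t) * (1 - Ac w lam) := by gcongr
        _ = _ := by ring
    calc Real.exp (-(t / 2)) * EE m t * |Dl (ha mr δ) w (V - t) lam|
        ≤ Real.exp (-(t / 2)) * EE m t * (ell t * (24 * B * ell V * (1 - Ac w lam))) := by
          refine mul_le_mul_of_nonneg_left (h1.trans h3) ?_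
          have := Real.exp_pos (-(t / 2))
          positivity
      _ = _ := by ring
  have hgap : Integrable (fun lam => 24 * B * ell V * (1 - Ac w lam)) (volume.restrict (Nr w)) :=
    Integrable.const_mul (gap_int h.h0 h.hw h.hub h.hC) _
  have hDi : Integrable (Function.uncurry D) (volume.prod (volume.restrict (Nr w))) := by
    have hmaj : Integrable (fun p : ℝ × ℝ => (Real.exp (-(p.1 / 2)) * EE m p.1 * ell p.1) *
        (24 * B * ell V * (1 - Ac w p.2))) (volume.prod (volume.restrict (Nr w))) :=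
      (EE_ker_int hm).mul_prod hgap
    refine Integrable.mono' hmaj hDmeas.aestronglyMeasurable ?_
    have hae : ∀ᵐ p : ℝ × ℝ ∂((volume : Measure ℝ).prod (volume.restrict (Nr w))), p.2 ∈ Nr w := by
      have : ((volume : Measure ℝ).prod ((volume : Measure ℝ).restrict (Nr w))) =
          ((volume : Measure ℝ).prod (volume : Measure ℝ)).restrict (univ ×ˢ Nr w) := by
        rw [← Measure.prod_restrict, Measure.restrict_univ]
      rw [this, ae_restrict_iff' (MeasurableSet.univ.prod (Nr_meas h.hub))]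
      exact Eventually.of_forall fun p hp => hp.2
    filter_upwards [hae] with p hp
    rw [Real.norm_eq_abs]
    exact hDb p.1 p.2 hp
  have e1 : ∫ t : ℝ, Real.exp (-(t / 2)) * EE m t * Zn mr w δ (V - t) = ∫ t : ℝ, ∫ lam in Nr w, D t lam := by
    congr 1
    ext t
    rw [Zn, ← integral_const_mul]
  rw [e1, integral_integral_swap hDi]
  have e2 : ∫ lam in Nr w, ∫ t : ℝ, D t lam = ∫ lam in Nr w, ∫ r in (0:ℝ)..(-Real.log (Ac w lam)),
      Real.exp (-(r / 2)) * ∫ u : ℝ, gt δ u * g1 m (V + u - r) := by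
    refine setIntegral_congr_fun (Nr_meas h.hub) fun lam hl => ?_
    exact lev_one hB hm hδ0 hδ V ((Real.exp_pos _).trans_le hl.2) (Ac_lt_one h.hub lam).le
  rw [e2, (lev_swap h (F_meas m δ V) (M := 32 * B * ell V) (fun r hr => F_bd hB hm hδ V hr)).2]
  refine Tr_eq h hδ0.le hδ (g1_meas m) (V := V) (M := 32 * B * ell V) fun y hy => ?_
  have h1 : ell y ≤ 2 * ell V := by
    have := ell_shift (x := V) (y := y - V) (by rw [abs_le]; constructor <;> linarith [hy.1, hy.2])
    rwa [show V + (y - V) = y by ring] at this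
  refine (g1_abs hB hm y).trans ?_
  nlinarith

/-- **Z3.** -/
theorem Zn_growth (h : Adm w Cw) : ∃ C : ℝ, 0 ≤ C ∧ ∀ (B : ℝ), GB (ff mr) B → ∀ δ V : ℝ, 0 < δ → δ ≤ 1 →
    |Zn mr w δ V| ≤ C * B * ell V := by
  have hg : IntegrableOn (fun lam => 1 - Ac w lam) (Nr w) := gap_int h.h0 h.hw h.hub h.hC
  have hg0 : 0 ≤ ∫ lam in Nr w, (1 - Ac w lam) :=
    integral_nonneg fun lam => by have := Ac_lt_one h.hub lam; show 0 ≤ 1 - Ac w lam; linarith
  refine ⟨24 * ∫ lam in Nr w, (1 - Ac w lam), by positivity, fun B hB δ V hδ0 hδ => ?_⟩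
  rw [Zn, ← Real.norm_eq_abs]
  calc ‖∫ lam in Nr w, Dl (ha mr δ) w V lam‖ ≤ ∫ lam in Nr w, 24 * B * ell V * (1 - Ac w lam) := by
        refine norm_integral_le_of_norm_le (Integrable.const_mul hg _) ?_
        rw [ae_restrict_iff' (Nr_meas h.hub)]
        exact Eventually.of_forall fun lam hl => Dl_near h hB hδ0 hδ V lam hl
    _ = _ := by rw [integral_const_mul]; ring

end Pool.Agent.Helper63.EQ
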