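import Pool.Agent.Helper95.EW.Near
import Pool.Agent.Helper63.EW.Ua

/-! Project EQ (edge weights, quantitative): definitions. -/

set_option autoImplicit false

namespace Pool.Agent.Helper63.EQ

open MeasureTheory Set Filter Topology
open Pool.Agent.Helper95.EW (Ac Dl Nr)
open Pool.Agent.Helper71.MR (gt)
open Pool.Agent.Helper63.EW (ha)

/-- the measure of the near levels with `Ac < exp (-r)` -/
noncomputable def nu (w : ℝ → ℝ) (r : ℝ) : ℝ := volume.real {lam : ℝ | lam ∈ Nr w ∧ Ac w lam < Real.exp (-r)}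

/-- the kernel of the levels -/
noncomputable def kw (w : ℝ → ℝ) (r : ℝ) : ℝ := if 0 < r then Real.exp (-(r / 2)) * nu w r else 0

/-- the kernel of the levels and of the tent -/
noncomputable def phi (w : ℝ → ℝ) (δ y : ℝ) : ℝ := ∫ r : ℝ, kw w r * gt δ (y + r)

/-- the average of a real function -/
noncomputable def Tr (w : ℝ → ℝ) (δ : ℝ) (f : ℝ → ℝ) (V : ℝ) : ℝ := ∫ y : ℝ, phi w δ y * f (V + y)

/-- the average of a complex function -/
noncomputable def Tc (w : ℝ → ℝ) (δ : ℝ) (g : ℝ → ℂ) (V : ℝ) : ℂ := ∫ y : ℝ, (phi w δ y : ℂ) * g (V + y)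

/-- the near-level integral of the tent smoothing of the sum function of `a` -/
noncomputable def Zn (a : ℕ → ℝ) (w : ℝ → ℝ) (δ V : ℝ) : ℝ := ∫ lam in Nr w, Dl (ha a δ) w V lam

/-- an admissible unbounded weight with the constant `C` -/
structure Adm (w : ℝ → ℝ) (C : ℝ) : Prop where
  h0 : ∀ t ∈ Ico (0 : ℝ) 1, 0 ≤ w t
  hw : MonotoneOn w (Ico 0 1)
  hub : ∀ B : ℝ, ∃ t ∈ Ico (0 : ℝ) 1, B < w t
  hC : ∀ N : ℕ, 1 ≤ N → w (1 - 1 / N) ≤ C * √N

end Pool.Agent.Helper63.EQ
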