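import Pool.Agent.Helper63.EQ.Defs
import Pool.Agent.Helper99.MS.Contra

/-! Project EQ, block Z1: increments of the smoothed sum function. -/

set_option autoImplicit false

namespace Pool.Agent.Helper63.EQ

open MeasureTheory Set Filter Topology
open Pool.Agent.Helper63.EW (AA AA_meas)
open Pool.Agent.Helper99.MS

theorem AA_eq (x : ℝ) : AA mr x = Asum mr x := rfl

theorem EE_le_exp {p : ℝ} (hp : 4 ≤ p) (t : ℝ) : EE p t ≤ Real.exp 4 * Real.exp (-|t|) := by
  refine (EE_anti hp t).trans ?_
  unfold EE
  rw [← Real.exp_add]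
  apply Real.exp_le_exp.2
  rcases le_total 0 t with ht | ht
  · rw [abs_of_nonneg ht]
    have := XX_le_sq_pos ht
    nlinarith [sq_nonneg (t - 1 / 4)]
  · rw [abs_of_nonpos ht]
    have := XX_le t
    linarith

theorem EE_int {p : ℝ} (hp : 4 ≤ p) : Integrable (EE p) := by
  refine Integrable.mono' (exp_abs_int.const_mul (Real.exp 4)) (EE_cont p).aestronglyMeasurable ?_
  filter_upwards with t
  rw [Real.norm_of_nonneg (EE_pos p t).le]
  exact EE_le_exp hp t

/-- the kernel of the smoothed sums -/
theorem EE_ker_le {m : ℝ} (t : ℝ) :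
    Real.exp (-(t / 2)) * EE m t * ell t ≤ 4 * EE (m - 4) t := by
  have h0 : EE m t = EE 4 t * EE (m - 4) t := by
    rw [← EE_add]; congr 1; ring
  have h1 := key1 t
  have h2 := (EE_pos (m - 4) t).le
  calc Real.exp (-(t / 2)) * EE m t * ell t = (Real.exp (-(t / 2)) * ell t * EE 4 t) * EE (m - 4) t := by
        rw [h0]; ring
    _ ≤ 4 * EE (m - 4) t := mul_le_mul_of_nonneg_right h1 h2

theorem EE_ker_int {m : ℝ} (hm : 8 ≤ m) : Integrable (fun t : ℝ => Real.exp (-(t / 2)) * EE m t * ell t) := by
  refine Integrable.mono' ((EE_int (by linarith : 4 ≤ m - 4)).const_mul 4) ?_ ?_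
  · apply Continuous.aestronglyMeasurable
    have h1 := EE_cont m
    have h2 := ell_cont
    fun_prop
  · filter_upwards with t
    have h1 := (EE_pos m t).le
    have h2 := ell_nonneg t
    rw [Real.norm_of_nonneg (by positivity)]
    exact EE_ker_le t

variable {B : ℝ}

theorem Asum_eq_ff (x t : ℝ) : Asum mr (Real.exp (x - t)) = Real.exp ((x - t) / 2) * ff mr (x - t) := by
  unfold ff
  rw [mul_comm (Asum mr _), ← mul_assoc, ← Real.exp_add]
  simp

theorem EE_AA_int (hB : GB (ff mr) B) {m : ℝ} (hm : 8 ≤ m) (x : ℝ) :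
    Integrable (fun t : ℝ => EE m t * AA mr (Real.exp (x - t))) := by
  refine Integrable.mono' ((EE_ker_int hm).const_mul (Real.exp (x / 2) * (B * ell x))) ?_ ?_
  · exact ((EE_cont m).measurable.mul ((AA_meas mr).comp (by fun_prop))).aestronglyMeasurable
  · filter_upwards with t
    have h1 := (EE_pos m t).le
    have hB0 := hB.nonneg
    rw [norm_mul, Real.norm_of_nonneg h1, Real.norm_eq_abs, AA_eq, Asum_eq_ff, abs_mul,
      abs_of_pos (Real.exp_pos _)]
    have h2 : |ff mr (x - t)| ≤ B * (ell x * ell t) := by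
      refine (hB _).trans (mul_le_mul_of_nonneg_left ?_ hB0)
      have := ell_add x (-t)
      rwa [ell_neg] at this
    calc EE m t * (Real.exp ((x - t) / 2) * |ff mr (x - t)|)
        ≤ EE m t * (Real.exp ((x - t) / 2) * (B * (ell x * ell t))) := by gcongr
      _ = Real.exp (x / 2) * (B * ell x) * (Real.exp (-(t / 2)) * EE m t * ell t) := by
          rw [show (x - t) / 2 = x / 2 + -(t / 2) by ring, Real.exp_add]
          ring

/-- `ww` against the sum function -/
theorem ww_AA (m x t : ℝ) : ww m t * AA mr (Real.exp (x - t)) = Real.exp (x / 2) * (ff mr (x - t) * al m t) := by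
  rw [AA_eq, Asum_eq_ff]
  unfold al
  rw [show (x - t) / 2 = x / 2 + -(t / 2) by ring, Real.exp_add]
  ring

theorem ww_AA_int (hB : GB (ff mr) B) {m : ℝ} (hm : 8 ≤ m) (x : ℝ) :
    Integrable (fun t : ℝ => ww m t * AA mr (Real.exp (x - t))) := by
  simp_rw [ww_AA]
  exact (g1_int hB hm x).const_mul _

theorem ww_AA_val (m x : ℝ) : ∫ t : ℝ, ww m t * AA mr (Real.exp (x - t)) = Real.exp (x / 2) * g1 m x := by
  simp_rw [ww_AA]
  rw [integral_const_mul]
  rfl

theorem ww_AA_norm (hB : GB (ff mr) B) {m : ℝ} (hm : 8 ≤ m) (x : ℝ) :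
    ∫ t : ℝ, ‖ww m t * AA mr (Real.exp (x - t))‖ ≤ Real.exp (x / 2) * (B * ell x * 16) := by
  have h1 : ∀ t : ℝ, ‖ww m t * AA mr (Real.exp (x - t))‖ ≤ Real.exp (x / 2) * ((B * ell x) * (ell t * |al m t|)) := by
    intro t
    rw [ww_AA, norm_mul, Real.norm_of_nonneg (Real.exp_pos _).le, Real.norm_eq_abs]
    exact mul_le_mul_of_nonneg_left (g1_bd hB m x t) (Real.exp_pos _).le
  calc ∫ t : ℝ, ‖ww m t * AA mr (Real.exp (x - t))‖
      ≤ ∫ t : ℝ, Real.exp (x / 2) * ((B * ell x) * (ell t * |al m t|)) :=
        integral_mono (ww_AA_int hB hm x).norm (((ell_al_int hm).const_mul _).const_mul _) h1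
    _ = Real.exp (x / 2) * ((B * ell x) * ∫ t, ell t * |al m t|) := by
        rw [integral_const_mul, integral_const_mul]
    _ ≤ Real.exp (x / 2) * ((B * ell x) * 16) := by
        have := ell_al_tot hm
        have h2 := hB.nonneg
        have h3 := ell_nonneg x
        gcongr

theorem g1_abs (hB : GB (ff mr) B) {m : ℝ} (hm : 8 ≤ m) (x : ℝ) : |g1 m x| ≤ 16 * B * ell x := by
  have h := g1_tail hB hm x Set.univ
  rw [setIntegral_univ, setIntegral_univ] at h
  have h1 := ell_al_tot hm
  have h2 := hB.nonneg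
  have h3 := ell_nonneg x
  calc |g1 m x| ≤ B * ell x * ∫ t, ell t * |al m t| := h
    _ ≤ B * ell x * 16 := by gcongr
    _ = _ := by ring

/-- **Z1.** -/
theorem inc (hB : GB (ff mr) B) {m : ℝ} (hm : 8 ≤ m) {c : ℝ} (hc : 0 < c) (hc1 : c ≤ 1) (V : ℝ) :
    ∫ t : ℝ, EE m t * (AA mr (Real.exp (V - t)) - AA mr (c * Real.exp (V - t))) =
      ∫ r in (0:ℝ)..(-Real.log c), Real.exp ((V - r) / 2) * g1 m (V - r) := by
  set l := -Real.log c with hl
  have hl0 : 0 ≤ l := by
    rw [hl]
    linarith [Real.log_nonpos hc.le hc1]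
  have e1 : ∀ t : ℝ, c * Real.exp (V - t) = Real.exp ((V - l) - t) := by
    intro t
    have : (V - l) - t = Real.log c + (V - t) := by rw [hl]; ring
    rw [this, Real.exp_add, Real.exp_log hc]
  have hB0 := hB.nonneg
  have i1 := EE_AA_int hB hm V
  have i2 := EE_AA_int hB hm (V - l)
  have e2 : ∫ t : ℝ, EE m t * AA mr (Real.exp ((V - l) - t)) = ∫ t : ℝ, EE m (t - l) * AA mr (Real.exp (V - t)) := by
    rw [← integral_sub_right_eq_self (fun t : ℝ => EE m t * AA mr (Real.exp ((V - l) - t))) l]
    congr 1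
    ext t
    rw [show V - l - (t - l) = V - t by ring]
  have i3 : Integrable (fun t : ℝ => EE m (t - l) * AA mr (Real.exp (V - t))) := by
    have := i2.comp_sub_right l
    refine this.congr (Eventually.of_forall fun t => ?_)
    show EE m (t - l) * AA mr (Real.exp (V - l - (t - l))) = _
    rw [show V - l - (t - l) = V - t by ring]
  have e3 : ∫ t : ℝ, EE m t * (AA mr (Real.exp (V - t)) - AA mr (c * Real.exp (V - t))) =
      ∫ t : ℝ, (EE m t - EE m (t - l)) * AA mr (Real.exp (V - t)) := by
    have h1 : ∫ t : ℝ, EE m t * (AA mr (Real.exp (V - t)) - AA mr (c * Real.exp (V - t))) =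
        (∫ t : ℝ, EE m t * AA mr (Real.exp (V - t))) - ∫ t : ℝ, EE m t * AA mr (Real.exp ((V - l) - t)) := by
      rw [← integral_sub i1 i2]
      congr 1
      ext t
      rw [e1]
      ring
    rw [h1, e2, ← integral_sub i1 i3]
    congr 1
    ext t
    ring
  rw [e3]
  have e4 : ∀ t : ℝ, EE m t - EE m (t - l) = ∫ r in (0:ℝ)..l, ww m (t - r) := by
    intro t
    have h1 : ∫ x in (t - l)..t, ww m x = EE m t - EE m (t - l) :=
      intervalIntegral.integral_eq_sub_of_hasDerivAt (fun x _ => EE_deriv m x) ((ww_cont m).intervalIntegrable _ _)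
    rw [← h1, intervalIntegral.integral_comp_sub_left (fun x => ww m x) t, sub_zero]
  have e5 : ∫ t : ℝ, (EE m t - EE m (t - l)) * AA mr (Real.exp (V - t)) =
      ∫ t : ℝ, ∫ r in (0:ℝ)..l, ww m (t - r) * AA mr (Real.exp (V - t)) := by
    congr 1
    ext t
    rw [e4, intervalIntegral.integral_mul_const]
  rw [e5]
  set F : ℝ → ℝ → ℝ := fun r t => ww m (t - r) * AA mr (Real.exp (V - t)) with hF
  have hsh : ∀ r : ℝ, ∀ t : ℝ, F r (t + r) = ww m t * AA mr (Real.exp ((V - r) - t)) := by
    intro r t
    rw [hF]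
    simp only
    rw [show t + r - r = t by ring, show V - (t + r) = V - r - t by ring]
  have hFi : Integrable (Function.uncurry F) ((volume.restrict (Set.uIoc (0:ℝ) l)).prod volume) := by
    have hmeas : Measurable (Function.uncurry F) := by
      have h1 : Measurable fun p : ℝ × ℝ => ww m (p.2 - p.1) := (ww_cont m).measurable.comp (by fun_prop)
      have h2 : Measurable fun p : ℝ × ℝ => AA mr (Real.exp (V - p.2)) := (AA_meas mr).comp (by fun_prop)
      exact h1.mul h2
    rw [integrable_prod_iff hmeas.aestronglyMeasurable]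
    constructor
    · filter_upwards with r
      have h1 := ww_AA_int hB hm (V - r)
      have h2 := h1.comp_sub_right r
      refine h2.congr (Eventually.of_forall fun t => ?_)
      have h3 := hsh r (t - r)
      rw [sub_add_cancel] at h3
      exact h3.symm
    · have hb : ∀ r ∈ Set.uIoc (0:ℝ) l, ‖∫ t, ‖Function.uncurry F (r, t)‖‖ ≤ Real.exp (V / 2) * (B * (ell V * ell l) * 16) := by
        intro r hr
        rw [uIoc_of_le hl0] at hr
        rw [Real.norm_of_nonneg (integral_nonneg fun _ => norm_nonneg _)]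
        have h1 : ∫ t, ‖Function.uncurry F (r, t)‖ = ∫ t, ‖ww m t * AA mr (Real.exp ((V - r) - t))‖ := by
          rw [← integral_add_right_eq_self (fun t => ‖Function.uncurry F (r, t)‖) r]
          congr 1
          ext t
          rw [← hsh r t]
          rfl
        rw [h1]
        refine (ww_AA_norm hB hm (V - r)).trans ?_
        have h2 : Real.exp ((V - r) / 2) ≤ Real.exp (V / 2) := Real.exp_le_exp.2 (by linarith [hr.1])
        have h3 : ell (V - r) ≤ ell V * ell l := by
          refine (ell_add V (-r)).trans (mul_le_mul_of_nonneg_left ?_ (ell_nonneg V))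
          rw [ell_neg]
          apply ell_mono
          rw [abs_of_pos hr.1, abs_of_nonneg hl0]
          exact hr.2
        have h4 := ell_nonneg (V - r)
        have h5 := ell_nonneg V
        have h6 := ell_nonneg l
        have h7 := (Real.exp_pos (V / 2)).le
        calc Real.exp ((V - r) / 2) * (B * ell (V - r) * 16) ≤ Real.exp (V / 2) * (B * ell (V - r) * 16) :=
              mul_le_mul_of_nonneg_right h2 (by positivity)
          _ ≤ Real.exp (V / 2) * (B * (ell V * ell l) * 16) := by
              refine mul_le_mul_of_nonneg_left ?_ h7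
              refine mul_le_mul_of_nonneg_right ?_ (by norm_num)
              exact mul_le_mul_of_nonneg_left h3 hB0
      refine Measure.integrableOn_of_bounded (s := Set.uIoc (0:ℝ) l) (M := Real.exp (V / 2) * (B * (ell V * ell l) * 16)) ?_ ?_ ?_
      · rw [uIoc_of_le hl0, Real.volume_Ioc]
        exact ENNReal.ofReal_ne_top
      · exact (hmeas.norm.stronglyMeasurable.integral_prod_right').aestronglyMeasurable
      · rw [ae_restrict_iff' measurableSet_uIoc]
        exact Eventually.of_forall hb
  have hsw := intervalIntegral_integral_swap (μ := volume) hFi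
  rw [← hsw]
  refine intervalIntegral.integral_congr fun r _ => ?_
  show ∫ t, F r t = Real.exp ((V - r) / 2) * g1 m (V - r)
  rw [← ww_AA_val, ← integral_add_right_eq_self (fun t => F r t) r]
  congr 1
  ext t
  exact hsh r t

end Pool.Agent.Helper63.EQ
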