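import Pool.Agent.Helper63.EQ.Inc

/-! Project EQ, block Z2: the average of the bump sum is the smoothed near-level integral. -/

set_option autoImplicit false

namespace Pool.Agent.Helper63.EQ

open MeasureTheory Set Filter Topology
open Pool.Agent.Helper95.EW (Ac Dl Nr Ac_meas Ac_lt_one Ac_nonneg Nr_meas Dl_bd gap_int Dl_meas)
open Pool.Agent.Helper71.MR (gt gt_cont gt_nonneg gt_zero gt_le_one gt_integrable gt_lip)
open Pool.Agent.Helper63.EW (ha ma AA AA_meas ma_meas Dl_ha ma_int gt_le)
open Pool.Agent.Helper99.MS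

variable {B : ℝ} {w : ℝ → ℝ} {Cw : ℝ}

theorem ma_ff (x : ℝ) : ma mr x = ff mr x := by
  unfold ma ff
  rw [AA_eq, neg_div]

theorem ell_one : ell 1 ≤ 2 := by
  have := ell_le_linear 1
  rw [abs_one] at this
  linarith

theorem ell_shift {x y : ℝ} (hy : |y| ≤ 1) : ell (x + y) ≤ 2 * ell x := by
  refine (ell_add x y).trans ?_
  have h1 : ell y ≤ 2 := (ell_le_linear y).trans (by linarith)
  have := ell_nonneg x
  nlinarith

theorem ma_shift (hB : GB (ff mr) B) {x y : ℝ} (hy : |y| ≤ 1) : |ma mr (x + y)| ≤ 2 * B * ell x := by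
  rw [ma_ff]
  refine (hB _).trans ?_
  have := hB.nonneg
  have h2 := ell_shift (x := x) hy
  nlinarith

theorem gt_int_le {δ : ℝ} (hδ : δ ≤ 1) : ∫ u : ℝ, gt δ u ≤ 1 := by
  have h1 : ∫ u : ℝ, gt δ u ≤ ∫ u : ℝ, (Icc (0:ℝ) 1).indicator (fun _ => (1:ℝ)) u := by
    refine integral_mono (gt_integrable δ) ((integrable_indicator_iff measurableSet_Icc).2
      (integrableOn_const (by simp) (by simp))) fun u => ?_
    by_cases hu : u ∈ Icc (0:ℝ) 1
    · rw [indicator_of_mem hu]; exact gt_le_one hδ u
    · rw [indicator_of_notMem hu, gt_zero]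
      rw [mem_Icc, not_and_or, not_le, not_le] at hu
      rcases hu with hu | hu
      · exact Or.inl hu.le
      · exact Or.inr (by linarith)
  rw [integral_indicator measurableSet_Icc] at h1
  simpa using h1

/-- size of the tent smoothing -/
theorem ha_abs (hB : GB (ff mr) B) {δ : ℝ} (hδ0 : 0 < δ) (hδ : δ ≤ 1) (y : ℝ) : |ha mr δ y| ≤ 8 * B * ell y := by
  have hB0 := hB.nonneg
  have hl := ell_nonneg y
  unfold ha
  rw [← Real.norm_eq_abs]
  calc ‖∫ u : ℝ, ma mr (y + u) * gt δ u‖ ≤ ∫ u : ℝ, (2 * B * ell y) * gt δ u := by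
        refine norm_integral_le_of_norm_le ((gt_integrable δ).const_mul _) (Eventually.of_forall fun u => ?_)
        rw [norm_mul, Real.norm_of_nonneg (gt_nonneg _ _), Real.norm_eq_abs]
        rcases le_or_gt u 0 with h | h
        · simp [gt_zero (δ := δ) (Or.inl h)]
        rcases le_or_gt δ u with h' | h'
        · simp [gt_zero (δ := δ) (Or.inr h')]
        exact mul_le_mul_of_nonneg_right (ma_shift hB (by rw [abs_of_pos h]; linarith)) (gt_nonneg _ _)
    _ = (2 * B * ell y) * ∫ u : ℝ, gt δ u := integral_const_mul _ _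
    _ ≤ (2 * B * ell y) * 1 := mul_le_mul_of_nonneg_left (gt_int_le hδ) (by positivity)
    _ ≤ _ := by nlinarith [mul_nonneg hB0 hl]

/-- Lipschitz bound of the tent smoothing -/
theorem ha_lip (hB : GB (ff mr) B) {δ : ℝ} (hδ0 : 0 < δ) (hδ : δ ≤ 1) (y t : ℝ) (h1 : -(1 / 2) ≤ t) (h2 : t ≤ 0) :
    |ha mr δ y - ha mr δ (y + t)| ≤ 8 * B * ell y * |t| := by
  have hB0 := hB.nonneg
  have hl := ell_nonneg y
  have e1 : ha mr δ (y + t) = ∫ u : ℝ, ma mr (y + u) * gt δ (u - t) := by
    unfold ha
    rw [← integral_sub_right_eq_self (fun u : ℝ => ma mr (y + t + u) * gt δ u) t]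
    congr 1
    ext u
    rw [show y + t + (u - t) = y + u by ring]
  have i2 : Integrable (fun u : ℝ => ma mr (y + u) * gt δ (u - t)) := by
    have := (ma_int abs_mr δ (y + t)).comp_sub_right t
    refine this.congr (Eventually.of_forall fun u => ?_)
    show ma mr (y + t + (u - t)) * gt δ (u - t) = _
    rw [show y + t + (u - t) = y + u by ring]
  rw [e1, ha, ← integral_sub (ma_int abs_mr δ y) i2, ← Real.norm_eq_abs]
  have i3 : Integrable ((Icc (-1:ℝ) 1).indicator (fun _ => 2 * B * ell y * |t|)) :=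
    (integrable_indicator_iff measurableSet_Icc).2 (integrableOn_const (by simp) enorm_ne_top)
  refine (norm_integral_le_of_norm_le i3 (Eventually.of_forall fun u => ?_)).trans ?_
  · rw [← mul_sub, norm_mul, Real.norm_eq_abs, Real.norm_eq_abs]
    by_cases hu : u ∈ Icc (-1:ℝ) 1
    · rw [indicator_of_mem hu]
      have h3 := ma_shift hB (x := y) (y := u) (abs_le.2 hu)
      have h4 := gt_lip δ u (u - t)
      rw [show u - (u - t) = t by ring] at h4
      exact mul_le_mul h3 h4 (abs_nonneg _) (by positivity)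
    · rw [indicator_of_notMem hu]
      rw [mem_Icc, not_and_or, not_le, not_le] at hu
      rcases hu with hu | hu
      · rw [gt_zero (δ := δ) (u := u) (Or.inl (by linarith)), gt_zero (δ := δ) (u := u - t) (Or.inl (by linarith))]
        simp
      · rw [gt_zero (δ := δ) (u := u) (Or.inr (by linarith)), gt_zero (δ := δ) (u := u - t) (Or.inr (by linarith))]
        simp
  · rw [integral_indicator measurableSet_Icc]
    simp only [integral_const, measureReal_restrict_apply MeasurableSet.univ, univ_inter, smul_eq_mul]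
    have : volume.real (Icc (-1:ℝ) 1) = 2 := by
      rw [Real.volume_real_Icc_of_le (by norm_num)]
      norm_num
    rw [this]
    have := abs_nonneg t
    nlinarith [mul_nonneg (mul_nonneg hB0 hl) this]

/-- the level function of the tent smoothing on the near levels -/
theorem Dl_near (h : Adm w Cw) (hB : GB (ff mr) B) {δ : ℝ} (hδ0 : 0 < δ) (hδ : δ ≤ 1) (y lam : ℝ) (hl : lam ∈ Nr w) :
    |Dl (ha mr δ) w y lam| ≤ 24 * B * ell y * (1 - Ac w lam) := by
  have := Dl_bd (H := ha mr δ) (y := y) (B := 8 * B * ell y) (lam := lam) h.hub (ha_abs hB hδ0 hδ y)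
    (fun t h1 h2 => ha_lip hB hδ0 hδ y t h1 h2) hl.2
  linarith

theorem ha_meas (a : ℕ → ℝ) (δ : ℝ) : Measurable (ha a δ) := by
  have hm : Measurable fun p : ℝ × ℝ => ma a (p.1 + p.2) * gt δ p.2 :=
    ((ma_meas a).comp (by fun_prop)).mul ((gt_cont δ).measurable.comp measurable_snd)
  exact (hm.stronglyMeasurable.integral_prod_right').measurable

theorem g1_meas (m : ℝ) : Measurable (g1 m) := by
  have hm : Measurable fun p : ℝ × ℝ => ff mr (p.1 - p.2) * al m p.2 :=
    ((ff_meas mr).comp (by fun_prop)).mul ((al_cont m).measurable.comp measurable_snd)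
  exact (hm.stronglyMeasurable.integral_prod_right').measurable

/-- F2 + inc: for one level -/
theorem lev_one (hB : GB (ff mr) B) {m : ℝ} (hm : 8 ≤ m) {δ : ℝ} (hδ0 : 0 < δ) (hδ : δ ≤ 1) (V : ℝ)
    {lam : ℝ} (hA0 : 0 < Ac w lam) (hA1 : Ac w lam ≤ 1) :
    ∫ t : ℝ, Real.exp (-(t / 2)) * EE m t * Dl (ha mr δ) w (V - t) lam =
      ∫ r in (0:ℝ)..(-Real.log (Ac w lam)), Real.exp (-(r / 2)) * ∫ u : ℝ, gt δ u * g1 m (V + u - r) := by
  have hB0 := hB.nonneg
  set c := Ac w lam with hc
  set l := -Real.log c with hl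
  have hl0 : 0 ≤ l := by rw [hl]; linarith [Real.log_nonpos hA0.le hA1]
  -- the double integral over `t` and `u`
  set F : ℝ → ℝ → ℝ := fun t u => Real.exp (-(t / 2)) * EE m t * (gt δ u * (Real.exp (-(V - t + u) / 2) *
      (AA mr (Real.exp (V - t + u)) - AA mr (c * Real.exp (V - t + u))))) with hF
  have hFmeas : Measurable (Function.uncurry F) := by
    have h1 : Measurable fun p : ℝ × ℝ => Real.exp (-(p.1 / 2)) * EE m p.1 :=
      (by fun_prop : Measurable fun p : ℝ × ℝ => Real.exp (-(p.1 / 2))).mul ((EE_cont m).measurable.comp measurable_fst)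
    have h2 : Measurable fun p : ℝ × ℝ => gt δ p.2 := (gt_cont δ).measurable.comp measurable_snd
    have h3 : Measurable fun p : ℝ × ℝ => AA mr (Real.exp (V - p.1 + p.2)) := (AA_meas mr).comp (by fun_prop)
    have h4 : Measurable fun p : ℝ × ℝ => AA mr (c * Real.exp (V - p.1 + p.2)) := (AA_meas mr).comp (by fun_prop)
    exact h1.mul (h2.mul ((by fun_prop : Measurable fun p : ℝ × ℝ => Real.exp (-(V - p.1 + p.2) / 2)).mul (h3.sub h4)))
  have hbdff : ∀ x : ℝ, |Real.exp (-x / 2) * (AA mr (Real.exp x) - AA mr (c * Real.exp x))| ≤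
      B * ell x * (1 + ell l) := by
    intro x
    have e1 : Real.exp (-x / 2) * AA mr (Real.exp x) = ff mr x := by
      rw [AA_eq]; unfold ff; rw [neg_div]; ring
    have e2 : Real.exp (-x / 2) * AA mr (c * Real.exp x) = Real.exp (-(l / 2)) * ff mr (x + -l) := by
      have h1 : c * Real.exp x = Real.exp (x + -l) := by
        rw [Real.exp_add, hl, neg_neg, Real.exp_log hA0]; ring
      rw [h1, AA_eq]
      unfold ff
      rw [show Real.exp (-(l / 2)) * (Asum mr (Real.exp (x + -l)) * Real.exp (-((x + -l) / 2))) =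
        Asum mr (Real.exp (x + -l)) * (Real.exp (-(l / 2)) * Real.exp (-((x + -l) / 2))) by ring, ← Real.exp_add,
        show -(l / 2) + -((x + -l) / 2) = -x / 2 by ring]
      ring
    rw [mul_sub, e1, e2]
    have h1 : |Real.exp (-(l / 2)) * ff mr (x + -l)| ≤ B * ell x * ell l := by
      rw [abs_mul, abs_of_pos (Real.exp_pos _)]
      have h2 : Real.exp (-(l / 2)) ≤ 1 := Real.exp_le_one_iff.2 (by linarith)
      have h3 : |ff mr (x + -l)| ≤ B * (ell x * ell l) := by
        refine (hB _).trans (mul_le_mul_of_nonneg_left ?_ hB0)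
        have := ell_add x (-l)
        rwa [ell_neg] at this
      calc Real.exp (-(l / 2)) * |ff mr (x + -l)| ≤ 1 * (B * (ell x * ell l)) :=
            mul_le_mul h2 h3 (abs_nonneg _) zero_le_one
        _ = _ := by ring
    calc |ff mr x - Real.exp (-(l / 2)) * ff mr (x + -l)| ≤ |ff mr x| + |Real.exp (-(l / 2)) * ff mr (x + -l)| := abs_sub _ _
      _ ≤ B * ell x + B * ell x * ell l := add_le_add (hB x) h1
      _ = _ := by ring
  have hell_l := ell_nonneg l
  have hellV := ell_nonneg V
  -- majorant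
  have hFb : ∀ t u : ℝ, |F t u| ≤ (Real.exp (-(t / 2)) * EE m t * ell t) * (gt δ u * (2 * B * ell V * (1 + ell l))) := by
    intro t u
    have hE := (EE_pos m t).le
    have hg := gt_nonneg δ u
    have hlt := ell_nonneg t
    rw [hF]
    simp only
    rw [abs_mul, abs_mul, abs_mul, abs_of_pos (Real.exp_pos (-(t / 2))), abs_of_nonneg hE, abs_of_nonneg hg]
    rcases le_or_gt u 0 with hu | hu
    · rw [gt_zero (δ := δ) (Or.inl hu)]; simp
    rcases le_or_gt δ u with hu' | hu'
    · rw [gt_zero (δ := δ) (Or.inr hu')]; simp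
    have h1 := hbdff (V - t + u)
    have h2 : ell (V - t + u) ≤ 2 * (ell V * ell t) := by
      refine (ell_shift (x := V - t) (y := u) (by rw [abs_of_pos hu]; linarith)).trans ?_
      have := ell_add V (-t)
      rw [ell_neg] at this
      exact mul_le_mul_of_nonneg_left this (by norm_num)
    have h3 : B * ell (V - t + u) * (1 + ell l) ≤ ell t * (2 * B * ell V * (1 + ell l)) := by
      calc B * ell (V - t + u) * (1 + ell l) ≤ B * (2 * (ell V * ell t)) * (1 + ell l) := by gcongr
        _ = _ := by ring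
    calc Real.exp (-(t / 2)) * EE m t * (gt δ u * |Real.exp (-(V - t + u) / 2) *
          (AA mr (Real.exp (V - t + u)) - AA mr (c * Real.exp (V - t + u)))|)
        ≤ Real.exp (-(t / 2)) * EE m t * (gt δ u * (ell t * (2 * B * ell V * (1 + ell l)))) := by
          refine mul_le_mul_of_nonneg_left (mul_le_mul_of_nonneg_left (h1.trans h3) hg) ?_
          have := Real.exp_pos (-(t / 2))
          positivity
      _ = _ := by ring
  have hFi : Integrable (Function.uncurry F) (volume.prod volume) := by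
    have hmaj : Integrable (fun p : ℝ × ℝ => (Real.exp (-(p.1 / 2)) * EE m p.1 * ell p.1) *
        (gt δ p.2 * (2 * B * ell V * (1 + ell l)))) (volume.prod volume) :=
      (EE_ker_int hm).mul_prod ((gt_integrable δ).mul_const _)
    refine Integrable.mono' hmaj hFmeas.aestronglyMeasurable (Eventually.of_forall fun p => ?_)
    rw [Real.norm_eq_abs]
    exact hFb p.1 p.2
  have hL : ∫ t : ℝ, Real.exp (-(t / 2)) * EE m t * Dl (ha mr δ) w (V - t) lam = ∫ t : ℝ, ∫ u : ℝ, F t u := by
    congr 1
    ext t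
    rw [Dl_ha abs_mr, ← integral_const_mul]
  rw [hL, integral_integral_swap hFi]
  -- inner integral over `t` through `inc`
  have hinner : ∀ u : ℝ, ∫ t : ℝ, F t u = gt δ u * ∫ r in (0:ℝ)..l, Real.exp (-(r / 2)) * g1 m (V + u - r) := by
    intro u
    have h1 : ∀ t : ℝ, F t u = (gt δ u * Real.exp (-((V + u) / 2))) *
        (EE m t * (AA mr (Real.exp (V + u - t)) - AA mr (c * Real.exp (V + u - t)))) := by
      intro t
      rw [hF]
      simp only
      have h2 : Real.exp (-(t / 2)) * Real.exp (-(V - t + u) / 2) = Real.exp (-((V + u) / 2)) := by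
        rw [← Real.exp_add]; congr 1; ring
      rw [show V - t + u = V + u - t by ring] at h2 ⊢
      calc _ = (Real.exp (-(t / 2)) * Real.exp (-(V + u - t) / 2)) * (gt δ u * (EE m t *
            (AA mr (Real.exp (V + u - t)) - AA mr (c * Real.exp (V + u - t))))) := by ring
        _ = _ := by rw [h2]; ring
    simp_rw [h1]
    rw [integral_const_mul, inc hB hm hA0 hA1 (V + u), mul_assoc, ← intervalIntegral.integral_const_mul]
    congr 1
    refine intervalIntegral.integral_congr fun r _ => ?_
    show Real.exp (-((V + u) / 2)) * (Real.exp ((V + u - r) / 2) * g1 m (V + u - r)) = _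
    rw [← mul_assoc, ← Real.exp_add]
    congr 2
    ring
  simp_rw [hinner]
  -- swap `u` and `r`
  set G : ℝ → ℝ → ℝ := fun r u => Real.exp (-(r / 2)) * (gt δ u * g1 m (V + u - r)) with hG
  have hGmeas : Measurable (Function.uncurry G) := by
    have h2 : Measurable fun p : ℝ × ℝ => gt δ p.2 := (gt_cont δ).measurable.comp measurable_snd
    have h3 : Measurable fun p : ℝ × ℝ => g1 m (V + p.2 - p.1) := (g1_meas m).comp (by fun_prop)
    exact (by fun_prop : Measurable fun p : ℝ × ℝ => Real.exp (-(p.1 / 2))).mul (h2.mul h3)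
  have hGb : ∀ r ∈ Ioc (0:ℝ) l, ∀ u : ℝ, |G r u| ≤ gt δ u * (16 * B * (2 * (ell V * ell l))) := by
    intro r hr u
    have hg := gt_nonneg δ u
    rw [hG]
    simp only
    rw [abs_mul, abs_mul, abs_of_pos (Real.exp_pos _), abs_of_nonneg hg]
    rcases le_or_gt u 0 with hu | hu
    · rw [gt_zero (δ := δ) (Or.inl hu)]; simp
    rcases le_or_gt δ u with hu' | hu'
    · rw [gt_zero (δ := δ) (Or.inr hu')]; simp
    have h1 := g1_abs hB hm (V + u - r)
    have h2 : ell (V + u - r) ≤ 2 * (ell V * ell l) := by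
      rw [show V + u - r = (V - r) + u by ring]
      refine (ell_shift (x := V - r) (y := u) (by rw [abs_of_pos hu]; linarith)).trans ?_
      have h3 := ell_add V (-r)
      rw [ell_neg] at h3
      have h4 : ell r ≤ ell l := ell_mono (by rw [abs_of_pos hr.1, abs_of_nonneg hl0]; exact hr.2)
      have : ell V * ell r ≤ ell V * ell l := mul_le_mul_of_nonneg_left h4 hellV
      have h5 : ell (V - r) ≤ ell V * ell l := h3.trans this
      linarith
    have h5 : Real.exp (-(r / 2)) ≤ 1 := Real.exp_le_one_iff.2 (by linarith [hr.1])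
    have h6 : |g1 m (V + u - r)| ≤ 16 * B * (2 * (ell V * ell l)) := h1.trans (by gcongr)
    calc Real.exp (-(r / 2)) * (gt δ u * |g1 m (V + u - r)|) ≤ 1 * (gt δ u * (16 * B * (2 * (ell V * ell l)))) := by
          gcongr
      _ = _ := by ring
  have hGi : Integrable (Function.uncurry G) ((volume.restrict (Set.uIoc (0:ℝ) l)).prod volume) := by
    rw [uIoc_of_le hl0]
    have hmaj : Integrable (fun p : ℝ × ℝ => (1:ℝ) * (gt δ p.2 * (16 * B * (2 * (ell V * ell l)))))
        ((volume.restrict (Ioc (0:ℝ) l)).prod volume) :=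
      (integrable_const (1:ℝ)).mul_prod ((gt_integrable δ).mul_const _)
    refine Integrable.mono' hmaj hGmeas.aestronglyMeasurable ?_
    have hae : ∀ᵐ p : ℝ × ℝ ∂((volume.restrict (Ioc (0:ℝ) l)).prod volume), p.1 ∈ Ioc (0:ℝ) l := by
      have : (volume.restrict (Ioc (0:ℝ) l)).prod (volume : Measure ℝ) =
          ((volume : Measure ℝ).prod (volume : Measure ℝ)).restrict (Ioc (0:ℝ) l ×ˢ univ) := by
        rw [← Measure.prod_restrict, Measure.restrict_univ]
      rw [this, ae_restrict_iff' (measurableSet_Ioc.prod MeasurableSet.univ)]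
      exact Eventually.of_forall fun p hp => hp.1
    filter_upwards [hae] with p hp
    rw [Real.norm_eq_abs, one_mul]
    exact hGb p.1 hp p.2
  have hsw := intervalIntegral_integral_swap (μ := volume) hGi
  have h1 : ∀ u : ℝ, gt δ u * ∫ r in (0:ℝ)..l, Real.exp (-(r / 2)) * g1 m (V + u - r) =
      ∫ r in (0:ℝ)..l, G r u := by
    intro u
    rw [← intervalIntegral.integral_const_mul]
    refine intervalIntegral.integral_congr fun r _ => ?_
    show gt δ u * (Real.exp (-(r / 2)) * g1 m (V + u - r)) = _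
    rw [hG]
    ring
  simp_rw [h1]
  rw [← hsw]
  refine intervalIntegral.integral_congr fun r _ => ?_
  show ∫ u, G r u = Real.exp (-(r / 2)) * ∫ u, gt δ u * g1 m (V + u - r)
  rw [← integral_const_mul]

end Pool.Agent.Helper63.EQ
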